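import Pool.Agent.R719.ML.Cont

set_option autoImplicit false

/-! # Continua, countable unions of totally disconnected closed sets, and the critical orbit -/

namespace Pool.Agent.R719.ML

open Set Metric Filter Topology Pool.Agent.R240.Loc

/-- A nondegenerate continuum is not covered by countably many totally disconnected closed sets. -/
theorem baire {ι : Type} [Countable ι] {L : Set ℂ} (hL : IsCompact L) (hc : IsPreconnected L)
    {p w : ℂ} (hp : p ∈ L) (hw : w ∈ L) (hpw : p ≠ w) (T : ι → Set ℂ)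
    (hT : ∀ i, IsClosed (T i)) (hT' : ∀ i, IsTotallyDisconnected (T i)) :
    ∃ z ∈ L, ∀ i, z ∉ T i := by
  by_contra hcon
  push Not at hcon
  have : CompactSpace L := isCompact_iff_compactSpace.1 hL
  have : Nonempty L := ⟨⟨p, hp⟩⟩
  have h1 : ∀ i, IsClosed ((fun x : L => (x : ℂ)) ⁻¹' T i) := fun i =>
    (hT i).preimage continuous_subtype_val
  have h2 : ⋃ i, ((fun x : L => (x : ℂ)) ⁻¹' T i) = univ := by
    rw [eq_univ_iff_forall]
    intro x
    obtain ⟨i, hi⟩ := hcon x x.2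
    exact mem_iUnion.2 ⟨i, hi⟩
  obtain ⟨i, x, hx⟩ := nonempty_interior_of_iUnion_of_closed h1 h2
  obtain ⟨δ, hδ, hball⟩ := Metric.mem_nhds_iff.1 (mem_interior_iff_mem_nhds.1 hx)
  obtain ⟨k, hk, hkx⟩ : ∃ k ∈ L, k ≠ (x : ℂ) := by
    by_cases h : p = (x : ℂ)
    · exact ⟨w, hw, fun h' => hpw (h.trans h'.symm)⟩
    · exact ⟨p, hp, h⟩
  have hd : 0 < dist k (x : ℂ) := dist_pos.2 hkx
  obtain ⟨r, hr⟩ : ∃ r, r = min δ (dist k (x : ℂ)) / 2 := ⟨_, rfl⟩
  have hm : 0 < min δ (dist k (x : ℂ)) := lt_min hδ hd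
  have hr0 : 0 < r := by rw [hr]; linarith
  have hrδ : r < δ := by
    have := min_le_left δ (dist k (x : ℂ))
    rw [hr]; linarith
  have hrk : r < dist k (x : ℂ) := by
    have := min_le_right δ (dist k (x : ℂ))
    rw [hr]; linarith
  obtain ⟨y, hy, hyx⟩ := bump hL hc (p := (x : ℂ)) (q := (x : ℂ)) (ε := r) x.2
    (by rw [dist_self]; exact hr0) hk hrk
  have hxm : (x : ℂ) ∈ L ∩ closedBall (x : ℂ) r := ⟨x.2, mem_closedBall_self hr0.le⟩
  have hsub : connectedComponentIn (L ∩ closedBall (x : ℂ) r) (x : ℂ) ⊆ T i := by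
    intro z hz
    have h3 := connectedComponentIn_subset _ _ hz
    have h4 : (⟨z, h3.1⟩ : L) ∈ ball x δ := by
      rw [mem_ball]
      exact lt_of_le_of_lt h3.2 hrδ
    exact hball h4
  have h5 := hT' i _ hsub isPreconnected_connectedComponentIn (mem_connectedComponentIn hxm) hy
  rw [← h5, dist_self] at hyx
  exact hr0.ne hyx

/-- An interior point is a point of local connectivity. -/
theorem cik_int {K : Set ℂ} {p : ℂ} (hp : p ∈ interior K) : CIK K p := by
  intro ε hε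
  obtain ⟨δ, hδ, hb⟩ := Metric.mem_nhds_iff.1 (mem_interior_iff_mem_nhds.1 hp)
  refine ⟨min ε δ, lt_min hε hδ, fun q hq hqp => ⟨ball p (min ε δ), ?_, ?_, ?_, hqp⟩⟩
  · intro z hz
    rw [mem_ball] at hz
    exact ⟨hb (lt_of_lt_of_le hz (min_le_right _ _)), lt_of_lt_of_le hz (min_le_left _ _)⟩
  · exact (convex_ball p _).isPreconnected
  · exact mem_ball_self (lt_min hε hδ)

/-- The polynomials `f_c^n (0)` in `c`. -/
noncomputable def pol : ℕ → Polynomial ℂ
  | 0 => 0
  | n + 1 => pol n ^ 2 + Polynomial.X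

theorem pol_eval (n : ℕ) (c : ℂ) : (pol n).eval c = (fun z : ℂ => z ^ 2 + c)^[n] 0 := by
  induction n with
  | zero => simp [pol]
  | succ n ih =>
    rw [Function.iterate_succ_apply', ← ih]
    simp [pol]

theorem pol_zero (n : ℕ) : (pol n).eval 0 = 0 := by
  induction n with
  | zero => simp [pol]
  | succ n ih => simp [pol, ih]

theorem pol_one (n : ℕ) : ∃ x : ℝ, 1 ≤ x ∧ (pol (n + 1)).eval 1 = x := by
  induction n with
  | zero => exact ⟨1, le_rfl, by simp [pol]⟩
  | succ n ih =>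
    obtain ⟨x, hx, h⟩ := ih
    refine ⟨x ^ 2 + 1, by nlinarith, ?_⟩
    rw [pol, Polynomial.eval_add, Polynomial.eval_pow, h]
    simp

theorem fibre (n : ℕ) (hn : 1 ≤ n) (w : ℂ) : {c : ℂ | (pol n).eval c = w}.Finite := by
  by_contra hinf
  have h1 : pol n = Polynomial.C w := by
    apply Polynomial.eq_of_infinite_eval_eq
    refine Set.Infinite.mono ?_ hinf
    intro c hc
    simpa using hc
  have h2 := pol_zero n
  obtain ⟨m, rfl⟩ : ∃ m, n = m + 1 := ⟨n - 1, by omega⟩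
  obtain ⟨x, hx, h3⟩ := pol_one m
  rw [h1, Polynomial.eval_C] at h2 h3
  rw [h2] at h3
  have h4 : (x : ℝ) = 0 := by exact_mod_cast h3.symm
  linarith

/-- The parameters for which the `n`-th point of the critical orbit is in a given totally
disconnected closed set form such a set. -/
theorem pre_closed (n : ℕ) {T : Set ℂ} (hT : IsClosed T) :
    IsClosed {c : ℂ | (fun z : ℂ => z ^ 2 + c)^[n] 0 ∈ T} := by
  have : {c : ℂ | (fun z : ℂ => z ^ 2 + c)^[n] 0 ∈ T} = (fun c => (pol n).eval c) ⁻¹' T := by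
    ext c
    simp [pol_eval]
  rw [this]
  exact hT.preimage (pol n).continuous

theorem pre_disc (n : ℕ) (hn : 1 ≤ n) {T : Set ℂ} (hT : IsTotallyDisconnected T) :
    IsTotallyDisconnected {c : ℂ | (fun z : ℂ => z ^ 2 + c)^[n] 0 ∈ T} := by
  intro C hC hCc
  by_contra hns
  rw [Set.not_subsingleton_iff] at hns
  obtain ⟨a, ha⟩ := hns.nonempty
  have h1 : ((fun c => (pol n).eval c) '' C).Subsingleton := by
    apply hT
    · rintro _ ⟨c, hc, rfl⟩
      have := hC hc
      simpa [pol_eval] using this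
    · exact hCc.image _ (pol n).continuous.continuousOn
  have h2 : C ⊆ {c : ℂ | (pol n).eval c = (pol n).eval a} := fun c hc =>
    h1 ⟨c, hc, rfl⟩ ⟨a, ha, rfl⟩
  exact hCc.infinite_of_nontrivial hns ((fibre n hn _).subset h2)

/-- Numbers which are far from the rationals, with exponent `n`. -/
def Cn (n : ℕ) : Set ℝ := {x | ∀ a b : ℤ, 1 < b → 1 / (b : ℝ) ^ n ≤ |x - a / b|}

theorem Cn_closed (n : ℕ) : IsClosed (Cn n) := by
  have : Cn n = ⋂ (a : ℤ) (b : ℤ) (_ : 1 < b), {x : ℝ | 1 / (b : ℝ) ^ n ≤ |x - a / b|} := by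
    ext x
    simp [Cn]
  rw [this]
  refine isClosed_iInter fun a => isClosed_iInter fun b => isClosed_iInter fun _ => ?_
  exact isClosed_le continuous_const (by fun_prop)

theorem Cn_rat (n : ℕ) (q : ℚ) : (q : ℝ) ∉ Cn n := by
  intro h
  have h1 := h (2 * q.num) (2 * q.den) (by have := q.den_pos; omega)
  have h2 : (((2 * q.num : ℤ) : ℝ)) / (((2 * q.den : ℤ)) : ℝ) = (q : ℝ) := by
    push_cast
    rw [mul_div_mul_left _ _ (by norm_num : (2 : ℝ) ≠ 0)]
    exact_mod_cast (Rat.num_div_den q)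
  rw [h2, sub_self, abs_zero] at h1
  have h3 : (0 : ℝ) < (((2 * q.den : ℤ)) : ℝ) := by
    have := q.den_pos
    exact_mod_cast (by omega : (0 : ℤ) < 2 * q.den)
  have : (0 : ℝ) < 1 / (((2 * q.den : ℤ)) : ℝ) ^ n := by positivity
  linarith

theorem Cn_mem {x : ℝ} (h : ¬ (Liouville x ∨ ∃ q : ℚ, x = q)) : ∃ n, x ∈ Cn n := by
  push Not at h
  obtain ⟨h1, h2⟩ := h
  unfold Liouville at h1
  push Not at h1
  obtain ⟨n, hn⟩ := h1
  refine ⟨n, fun a b hb => hn a b hb ?_⟩
  intro h3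
  refine h2 ((a : ℚ) / b) ?_
  rw [h3]
  push_cast
  rfl

theorem ordc {S : Set ℝ} (hS : IsPreconnected S) (n : ℕ) (hn : S ⊆ Cn n) : S.Subsingleton := by
  have key : ∀ x ∈ S, ∀ y ∈ S, ¬ x < y := by
    intro x hx y hy hxy
    obtain ⟨q, hq1, hq2⟩ := exists_rat_btwn hxy
    exact Cn_rat n q (hn (hS.ordConnected.out hx hy ⟨hq1.le, hq2.le⟩))
  intro x hx y hy
  exact le_antisymm (not_lt.1 (key y hy x hx)) (not_lt.1 (key x hx y hy))

/-- The closed sets of the corollary. -/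
def Tn (n m : ℕ) : Set ℂ := {z | z.re ∈ Cn n ∧ z.im ∈ Cn m}

theorem Tn_closed (n m : ℕ) : IsClosed (Tn n m) :=
  ((Cn_closed n).preimage Complex.continuous_re).inter
    ((Cn_closed m).preimage Complex.continuous_im)

theorem Tn_disc (n m : ℕ) : IsTotallyDisconnected (Tn n m) := by
  intro C hC hCc x hx y hy
  have h1 : (Complex.re '' C).Subsingleton :=
    ordc (hCc.image _ Complex.continuous_re.continuousOn) n (by
      rintro _ ⟨z, hz, rfl⟩
      exact (hC hz).1)
  have h2 : (Complex.im '' C).Subsingleton :=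
    ordc (hCc.image _ Complex.continuous_im.continuousOn) m (by
      rintro _ ⟨z, hz, rfl⟩
      exact (hC hz).2)
  exact Complex.ext (h1 ⟨x, hx, rfl⟩ ⟨y, hy, rfl⟩) (h2 ⟨x, hx, rfl⟩ ⟨y, hy, rfl⟩)

end Pool.Agent.R719.ML
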