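import Pool.Agent.R240.Loc

set_option autoImplicit false

/-! # Continua of points at which a continuum is not locally connected -/

namespace Pool.Agent.R719.ML

open Set Metric Filter Topology Pool.Agent.R240.Loc

/-- If a continuum is not connected im kleinen at a point, then this point lies in arbitrarily
small, but nondegenerate, continua of such points. -/
theorem continuum {K : Set ℂ} (hK : IsCompact K) (hc : IsPreconnected K) {p : ℂ}
    (h : ¬ CIK K p) : ∃ ε : ℝ, 0 < ε ∧ ∀ s : ℝ, 0 < s → s < ε → ∃ L ⊆ K ∩ closedBall p s,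
      IsPreconnected L ∧ IsClosed L ∧ p ∈ L ∧ (∃ w ∈ L, dist w p = s) ∧ ∀ z ∈ L, ¬ CIK K z := by
  unfold CIK at h
  push Not at h
  obtain ⟨ε₀, hε₀, h⟩ := h
  obtain ⟨ε, hε⟩ : ∃ ε, ε = ε₀ / 2 := ⟨_, rfl⟩
  have hε0 : 0 < ε := by rw [hε]; linarith
  have hεε : ε < ε₀ := by rw [hε]; linarith
  obtain ⟨q, hq⟩ : ∃ q : ℕ → ℂ, ∀ n, q n ∈ K ∧ dist (q n) p < 1 / ((n : ℝ) + 1) ∧
      ∀ C ⊆ K ∩ ball p ε₀, IsPreconnected C → p ∈ C → q n ∉ C := by
    have h1 : ∀ n : ℕ, ∃ y, y ∈ K ∧ dist y p < 1 / ((n : ℝ) + 1) ∧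
      ∀ C ⊆ K ∩ ball p ε₀, IsPreconnected C → p ∈ C → y ∉ C := by
      intro n
      obtain ⟨y, h1, h2, h3⟩ := h (1 / ((n : ℝ) + 1)) (by positivity)
      exact ⟨y, h1, h2, h3⟩
    choose q hq using h1
    exact ⟨q, hq⟩
  have hqlim : Tendsto q atTop (𝓝 p) := by
    rw [tendsto_iff_dist_tendsto_zero]
    exact squeeze_zero (fun _ => dist_nonneg) (fun n => (hq n).2.1.le)
      tendsto_one_div_add_atTop_nhds_zero_nat
  have hpK : p ∈ K := hK.isClosed.mem_of_tendsto hqlim (Eventually.of_forall fun n => (hq n).1)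
  obtain ⟨k, hk, hkp⟩ : ∃ k ∈ K, ε < dist k p := by
    by_contra hcon
    push Not at hcon
    exact (hq 0).2.2 K (fun y hy => ⟨hy, mem_ball.2 ((hcon y hy).trans_lt hεε)⟩) hc hpK (hq 0).1
  obtain ⟨F, hF⟩ : ∃ F : Set ℂ, F = K ∩ closedBall p ε := ⟨_, rfl⟩
  have hFc : IsCompact F := by rw [hF]; exact hK.inter_right isClosed_closedBall
  have hFsub : F ⊆ K ∩ ball p ε₀ := by
    rw [hF]
    exact fun y hy => ⟨hy.1, closedBall_subset_ball hεε hy.2⟩
  -- `p` is not in the components
  have hpC : ∀ n, q n ∈ F → p ∉ connectedComponentIn F (q n) := by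
    intro n hn hp
    exact (hq n).2.2 _ ((connectedComponentIn_subset F (q n)).trans hFsub)
      isPreconnected_connectedComponentIn hp (mem_connectedComponentIn hn)
  refine ⟨ε, hε0, fun s hs0 hsε => ?_⟩
  obtain ⟨G, hG⟩ : ∃ G : Set ℂ, G = K ∩ closedBall p s := ⟨_, rfl⟩
  have hGc : IsCompact G := by rw [hG]; exact hK.inter_right isClosed_closedBall
  have hGF : G ⊆ F := by
    rw [hG, hF]
    exact inter_subset_inter_right _ (closedBall_subset_closedBall hsε.le)
  have hqs : ∀ᶠ n in atTop, dist (q n) p < s := hqlim (ball_mem_nhds p hs0)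
  obtain ⟨n₀, hn₀⟩ := eventually_atTop.1 hqs
  obtain ⟨r, hr⟩ : ∃ r : ℕ → ℂ, r = fun n => q (n + n₀) := ⟨_, rfl⟩
  have hrs : ∀ n, dist (r n) p < s := fun n => by rw [hr]; exact hn₀ (n + n₀) (by omega)
  have hrG : ∀ n, r n ∈ G := fun n => by
    rw [hG]
    refine ⟨by rw [hr]; exact (hq _).1, mem_closedBall.2 (hrs n).le⟩
  have hrlim : Tendsto r atTop (𝓝 p) := by
    rw [hr]
    exact hqlim.comp (tendsto_add_atTop_nat n₀)
  have hrC : ∀ n, p ∉ connectedComponentIn F (r n) := fun n => by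
    have h1 := hGF (hrG n)
    rw [hr] at h1 ⊢
    exact hpC _ h1
  obtain ⟨C, hC⟩ : ∃ C : ℕ → Set ℂ, C = fun n => connectedComponentIn G (r n) := ⟨_, rfl⟩
  have hCc : ∀ n, IsPreconnected (C n) := fun n => by
    rw [hC]; exact isPreconnected_connectedComponentIn
  have hCG : ∀ n, C n ⊆ G := fun n => by rw [hC]; exact connectedComponentIn_subset _ _
  have hCr : ∀ n, r n ∈ C n := fun n => by rw [hC]; exact mem_connectedComponentIn (hrG n)
  have hCF : ∀ n, C n ⊆ connectedComponentIn F (r n) := fun n =>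
    (hCc n).subset_connectedComponentIn (hCr n) ((hCG n).trans hGF)
  obtain ⟨L, hL⟩ : ∃ L : Set ℂ, L = ⋂ n : ℕ, closure (⋃ m ∈ Ici n, C m) := ⟨_, rfl⟩
  have hLcl : IsClosed L := by rw [hL]; exact isClosed_iInter fun n => isClosed_closure
  have hLG : L ⊆ G := by
    rw [hL]
    refine (iInter_subset _ 0).trans ?_
    exact closure_minimal (iUnion₂_subset fun m _ => hCG m) hGc.isClosed
  -- limits of points of the components are in `L`
  have hlimL : ∀ (x : ℕ → ℂ) (m : ℕ → ℕ), (∀ k, k ≤ m k) → (∀ k, x k ∈ C (m k)) →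
      ∀ w, Tendsto x atTop (𝓝 w) → w ∈ L := by
    intro x m hm hx w hw
    rw [hL, mem_iInter]
    intro n
    refine mem_closure_of_tendsto hw ?_
    filter_upwards [eventually_ge_atTop n] with k hk
    exact mem_iUnion₂.2 ⟨m k, le_trans hk (hm k), hx k⟩
  -- a sequence of such points has a limit point in `L`
  have hcl : ∀ (x : ℕ → ℂ) (m : ℕ → ℕ), (∀ k, k ≤ m k) → (∀ k, x k ∈ C (m k)) →
      ∃ w ∈ L, ∃ φ : ℕ → ℕ, StrictMono φ ∧ Tendsto (x ∘ φ) atTop (𝓝 w) := by
    intro x m hm hx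
    obtain ⟨w, -, φ, hφ, hw⟩ := hGc.tendsto_subseq fun k => hCG _ (hx k)
    exact ⟨w, hlimL (x ∘ φ) (m ∘ φ) (fun k => (hφ.id_le k).trans (hm _)) (fun k => hx _) w hw,
      φ, hφ, hw⟩
  have hpL : p ∈ L := hlimL r id (fun _ => le_rfl) hCr p hrlim
  refine ⟨L, by rw [← hG]; exact hLG, ?_, hLcl, hpL, ?_, ?_⟩
  · -- connectedness
    rw [isPreconnected_closed_iff]
    have key : ∀ A B : Set ℂ, IsClosed A → IsClosed B → L ⊆ A ∪ B → p ∈ A → (L ∩ B).Nonempty →
        (L ∩ (A ∩ B)).Nonempty := by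
      intro A B hA hB hAB hpA hLB
      by_contra hcon
      have hLc : IsCompact L := hGc.of_isClosed_subset hLcl hLG
      have hdisj : Disjoint (L ∩ A) (L ∩ B) := by
        rw [Set.disjoint_left]
        rintro x ⟨hx1, hx2⟩ ⟨-, hx3⟩
        exact hcon ⟨x, hx1, hx2, hx3⟩
      obtain ⟨U, V, hU, hV, hAU, hBV, hUV⟩ :=
        SeparatedNhds.of_isCompact_isCompact (hLc.inter_right hA) (hLc.inter_right hB) hdisj
      have hev : ∀ᶠ n in atTop, C n ⊆ U ∪ V := by
        by_contra hne
        have hfr : ∃ᶠ n in atTop, ¬ C n ⊆ U ∪ V := not_eventually.1 hne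
        rw [frequently_atTop] at hfr
        choose m hm using hfr
        have h2 : ∀ k, ∃ x ∈ C (m k), x ∉ U ∪ V := fun k => by
          have := (hm k).2
          rw [not_subset] at this
          exact this
        choose x hx1 hx2 using h2
        obtain ⟨w, hw, φ, -, hwl⟩ := hcl x m (fun k => (hm k).1) hx1
        have h3 : w ∈ (U ∪ V)ᶜ := (hU.union hV).isClosed_compl.mem_of_tendsto hwl
          (Eventually.of_forall fun k => hx2 _)
        rcases hAB hw with h4 | h4
        · exact h3 (Or.inl (hAU ⟨hw, h4⟩))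
        · exact h3 (Or.inr (hBV ⟨hw, h4⟩))
      have hev2 : ∀ᶠ n in atTop, r n ∈ U := hrlim (hU.mem_nhds (hAU ⟨hpL, hpA⟩))
      obtain ⟨n, hn⟩ := eventually_atTop.1 (hev.and hev2)
      obtain ⟨b, hbL, hbB⟩ := hLB
      have hbV : b ∈ V := hBV ⟨hbL, hbB⟩
      have h5 : b ∈ closure (⋃ m ∈ Ici n, C m) := by
        rw [hL, mem_iInter] at hbL
        exact hbL n
      obtain ⟨y, hyV, hy⟩ := mem_closure_iff.1 h5 V hV hbV
      obtain ⟨m, hm, hym⟩ := mem_iUnion₂.1 hy
      have h6 : C m ⊆ U := (hCc m).subset_left_of_subset_union hU hV hUV (hn m hm).1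
        ⟨r m, hCr m, (hn m hm).2⟩
      exact Set.disjoint_left.1 hUV (h6 hym) hyV
    intro A B hA hB hAB hLA hLB
    rcases hAB hpL with h1 | h1
    · exact key A B hA hB hAB h1 hLB
    · rw [inter_comm A B]
      exact key B A hB hA (by rwa [union_comm]) h1 hLA
  · -- a point on the circle
    have hy : ∀ n, ∃ y ∈ C n, dist y p = s := by
      intro n
      obtain ⟨y, hy, hyp⟩ := bump hK hc (hG ▸ hrG n).1 (hrs n) hk (hsε.trans hkp)
      rw [← hG] at hy
      exact ⟨y, by rw [hC]; exact hy, hyp⟩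
    choose y hy1 hy2 using hy
    obtain ⟨w, hw, φ, -, hwl⟩ := hcl y id (fun _ => le_rfl) hy1
    refine ⟨w, hw, ?_⟩
    have h1 : Tendsto (fun n => dist ((y ∘ φ) n) p) atTop (𝓝 (dist w p)) :=
      hwl.dist tendsto_const_nhds
    have h2 : Tendsto (fun n => dist ((y ∘ φ) n) p) atTop (𝓝 s) := by
      have : (fun n => dist ((y ∘ φ) n) p) = fun _ => s := by
        funext n
        exact hy2 _
      rw [this]
      exact tendsto_const_nhds
    exact tendsto_nhds_unique h1 h2
  · -- not connected im kleinen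
    intro w hwL hcik
    have hwG := hLG hwL
    have hws : dist w p ≤ s := by
      rw [hG] at hwG
      exact hwG.2
    obtain ⟨δ, hδ, hcik⟩ := hcik (ε - s) (by linarith)
    have hsubF : K ∩ ball w (ε - s) ⊆ F := by
      rintro y ⟨hy1, hy2⟩
      rw [hF]
      refine ⟨hy1, mem_closedBall.2 ?_⟩
      rw [mem_ball] at hy2
      have := dist_triangle y w p
      linarith
    -- the components of `F` through the points near `w`
    have hz : ∀ n : ℕ, ∃ m, n ≤ m ∧ connectedComponentIn F (r m) = connectedComponentIn F w := by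
      intro n
      have h1 : w ∈ closure (⋃ m ∈ Ici n, C m) := by
        rw [hL, mem_iInter] at hwL
        exact hwL n
      obtain ⟨y, hyw, hy⟩ := mem_closure_iff.1 h1 (ball w δ) isOpen_ball (mem_ball_self hδ)
      obtain ⟨m, hm, hym⟩ := mem_iUnion₂.1 hy
      refine ⟨m, hm, ?_⟩
      obtain ⟨D, hD1, hD2, hD3, hD4⟩ := hcik y (by
        have := hCG m hym
        rw [hG] at this
        exact this.1) hyw
      have h2 : D ⊆ connectedComponentIn F w :=
        hD2.subset_connectedComponentIn hD3 (hD1.trans hsubF)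
      rw [connectedComponentIn_eq (hCF m hym), ← connectedComponentIn_eq (h2 hD4)]
    choose m hm1 hm2 using hz
    have hwF : w ∈ F := hGF hwG
    have hclosed : IsClosed (connectedComponentIn F w) := by
      rw [connectedComponentIn_eq_image hwF]
      have : CompactSpace F := isCompact_iff_compactSpace.1 hFc
      exact (isClosed_connectedComponent.isCompact.image continuous_subtype_val).isClosed
    have hpw : p ∈ connectedComponentIn F w := by
      refine hclosed.mem_of_tendsto (hrlim.comp (tendsto_atTop_mono hm1 tendsto_id)) ?_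
      refine Eventually.of_forall fun n => ?_
      rw [← hm2 n]
      exact mem_connectedComponentIn (hGF (hrG _))
    rw [← hm2 0] at hpw
    exact hrC _ hpw

end Pool.Agent.R719.ML
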